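import Mathlib
import Pool.Agent.H95.Gol.Basic
import Pool.Agent.H96.Sing.Key
import Pool.Agent.H96.Sing.DiffSet
import Pool.Agent.H96.Sing.Group

/-!
The arithmetic condition `Good w` holds for Hadamard designs with `4w-1` points which have, for
every prime `p` dividing `4w-1`, an automorphism of order `p` with an even number of fixed points
(for instance none), in particular for Hadamard difference sets in arbitrary groups.
-/

namespace Pool.Agent.H88.Gol

open Finset Pool.Agent.H95.Gol Pool.Agent.H96.Sing

/-- a permutation of prime order `q` of an odd number of points with an even number of fixed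
points moves `c * q` points, `c` odd -/
lemma moved_odd {v : ℕ} (hv : Odd v) (s : Equiv.Perm (Fin v)) (q : ℕ) (hq : q.Prime)
    (hsq : s ^ q = 1) (hev : Even (univ.filter (fun x => s x = x)).card) :
    ∃ c : ℕ, Odd c ∧ (univ.filter (fun x => s x ≠ x)).card = c * q := by
  classical
  have : Fact q.Prime := ⟨hq⟩
  obtain ⟨I, _, e, he⟩ := exists_param (q := q) s hsq
  have h3 := Fintype.card_congr e
  rw [Fintype.card_prod, ZMod.card, Fintype.card_subtype] at h3
  have hc : (univ.filter (fun x => s x ≠ x)).card = Fintype.card I * q := h3.symm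
  refine ⟨Fintype.card I, ?_, hc⟩
  have htot := card_filter_add_card_filter_not (s := (univ : Finset (Fin v))) (fun x => s x = x)
  rw [card_univ, Fintype.card_fin] at htot
  simp only [ne_eq] at hc
  rw [hc] at htot
  have h4 : Odd (Fintype.card I * q) := by
    rw [← htot, Nat.odd_add] at hv
    rw [← Nat.not_even_iff_odd]
    intro hcon
    exact (Nat.not_odd_iff_even.mpr hev) (hv.mpr hcon)
  exact (Nat.odd_mul.mp h4).1

/-- the condition `Good` for designs with automorphisms with an even number of fixed points -/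
theorem good_of_even (w : ℕ) (hw : 0 < w) (B : Fin (4 * w - 1) → Finset (Fin (4 * w - 1)))
    (hB : IsSymmetricDesign (4 * w - 1) (2 * w - 1) (w - 1) B)
    (haut : ∀ p : ℕ, p.Prime → p ∣ 4 * w - 1 →
      ∃ s, IsAut B s ∧ orderOf s = p ∧ Even (univ.filter (fun x => s x = x)).card) : Good w := by
  intro p q hp hq hpw hqw m hm
  obtain ⟨s, hs, hsp, hev⟩ := haut p hp hpw
  have hsp' : s ^ p = 1 := by rw [← hsp]; exact pow_orderOf_eq_one s
  have hv : Odd (4 * w - 1) := ⟨2 * w - 1, by omega⟩
  obtain ⟨c, hc, hcard⟩ := moved_odd hv s p hp hsp' hev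
  have : Fact p.Prime := ⟨hp⟩
  have : Fact q.Prime := ⟨hq⟩
  have hp2 : 2 < p := by
    rcases hp.eq_two_or_odd with h | h
    · subst h
      have := hpw
      rw [← even_iff_two_dvd] at this
      exact absurd this (Nat.not_even_iff_odd.mpr hv)
    · have := hp.two_le
      omega
  have hqp : q ≠ p := by
    rintro rfl
    have h1 : q ∣ w := by
      by_contra hcon
      rw [padicValNat.eq_zero_of_not_dvd hcon] at hqw
      exact absurd hqw (by decide)
    have h2 : q ∣ 1 := by
      have h3 : q ∣ 4 * w := Dvd.dvd.mul_left h1 4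
      have h4 := (Nat.dvd_sub h3 hpw)
      have h5 : 4 * w - (4 * w - 1) = 1 := by omega
      rwa [h5] at h4
    exact hq.one_lt.ne' (Nat.dvd_one.mp h2)
  have hkey := key hB (by omega) s hs p hp2 hsp' c hc hcard q hqp m hm
  have h1 : 2 * w - 1 - (w - 1) = w := by omega
  rw [h1] at hkey
  exact absurd hqw (Nat.not_odd_iff_even.mpr hkey)

/-- the condition `Good` for designs with automorphisms without fixed points -/
theorem good_of_free (w : ℕ) (hw : 0 < w) (B : Fin (4 * w - 1) → Finset (Fin (4 * w - 1)))
    (hB : IsSymmetricDesign (4 * w - 1) (2 * w - 1) (w - 1) B)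
    (haut : ∀ p : ℕ, p.Prime → p ∣ 4 * w - 1 → ∃ s, IsAut B s ∧ s ^ p = 1 ∧ ∀ x, s x ≠ x) :
    Good w := by
  refine good_of_even w hw B hB fun p hp hpw => ?_
  obtain ⟨s, h1, h2, h3⟩ := haut p hp hpw
  refine ⟨s, h1, ?_, ?_⟩
  · have hs1 : s ≠ 1 := by
      rintro rfl
      exact h3 ⟨0, by omega⟩ rfl
    have : Fact p.Prime := ⟨hp⟩
    exact orderOf_eq_prime h2 hs1
  · have : (Finset.univ.filter (fun x => s x = x)) = ∅ := by
      rw [Finset.filter_eq_empty_iff]
      intro x _
      exact h3 x
    rw [this]; simp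

/-- the condition `Good` for designs with a transitive group of automorphisms which is nilpotent
or whose point stabilisers have order prime to the number of points -/
theorem good_of_transitive (w : ℕ) (hw : 0 < w)
    (B : Fin (4 * w - 1) → Finset (Fin (4 * w - 1)))
    (hB : IsSymmetricDesign (4 * w - 1) (2 * w - 1) (w - 1) B)
    (H : Subgroup (Equiv.Perm (Fin (4 * w - 1)))) (hH : ∀ s ∈ H, IsAut B s)
    (htrans : ∀ x y, ∃ s ∈ H, s x = y)
    (hcond : (∀ x : Fin (4 * w - 1),
        Nat.Coprime (Nat.card (MulAction.stabilizer H x)) (4 * w - 1)) ∨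
      Group.IsNilpotent H) : Good w := by
  refine good_of_free w hw B hB fun p hp hpw => ?_
  obtain ⟨s, hs, h1, h2⟩ := fpf_of_group (by omega) H htrans hcond p hp hpw
  exact ⟨s, hH s hs, h1, h2⟩

/-- the condition `Good` for difference sets in arbitrary groups -/
theorem good_of_diffSet (w : ℕ) (hw : 0 < w) (G : Type) [Group G] (D : Finset G)
    (hG : Nat.card G = 4 * w - 1) (hD : D.card = 2 * w - 1) (h : IsDifferenceSet G D (w - 1)) :
    Good w := by
  have : Finite G := by
    apply Nat.finite_of_card_ne_zero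
    omega
  obtain ⟨B, hB, hfree⟩ := design_of_diffSet G D (w - 1) h (by omega)
  rw [hD] at hB
  revert B
  rw [hG]
  intro B h1 h2
  exact good_of_free w hw B h1 h2

/-- the condition `Good` for cyclic difference sets -/
theorem good_of_cyclic (w : ℕ) (hw : 0 < w) (D : Finset (ZMod (4 * w - 1)))
    (hD : D.card = 2 * w - 1)
    (h : ∀ d : ZMod (4 * w - 1), d ≠ 0 →
      ((D ×ˢ D).filter (fun t => t.1 - t.2 = d)).card = w - 1) : Good w := by
  have hne : NeZero (4 * w - 1) := ⟨by omega⟩
  refine good_of_diffSet w hw (Multiplicative (ZMod (4 * w - 1)))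
    (D.map Multiplicative.ofAdd.toEmbedding) ?_ ?_ ?_
  · rw [Nat.card_eq_fintype_card, Fintype.card_multiplicative, ZMod.card]
  · rw [card_map, hD]
  · intro g hg
    have hg' : Multiplicative.toAdd g ≠ 0 := by
      intro h
      exact hg (Multiplicative.toAdd.injective h)
    rw [← h _ hg', ← Set.ncard_coe_finset]
    refine Set.ncard_congr (fun t _ => (Multiplicative.toAdd t.1, Multiplicative.toAdd t.2)) ?_ ?_ ?_
    · rintro ⟨a, b⟩ ⟨h1, h2, h3⟩
      simp only [mem_map_equiv] at h1 h2
      simp only [coe_filter, mem_product]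
      refine ⟨⟨h1, h2⟩, ?_⟩
      simp only at h3 ⊢
      rw [← h3]
      simp [sub_eq_add_neg]
    · rintro ⟨a, b⟩ ⟨a', b'⟩ _ _ hab
      simpa using hab
    · rintro ⟨a, b⟩ hab
      simp only [coe_filter, mem_product] at hab
      obtain ⟨⟨h1, h2⟩, h3⟩ := hab
      refine ⟨(Multiplicative.ofAdd a, Multiplicative.ofAdd b), ⟨?_, ?_, ?_⟩, rfl⟩
      · simpa using h1
      · simpa using h2
      · simp only at h3 ⊢
        rw [← ofAdd_neg, ← ofAdd_add, ← sub_eq_add_neg, h3]
        rfl

end Pool.Agent.H88.Gol
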